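import Pool.Agent.H84.GL.Targets2
import Pool.Agent.H22.LPP.Prob

/-!
Geometric last passage percolation (MP_57ddd5_pr): windowed exponential maxima of the bulk
passage times.
-/

open MeasureTheory ProbabilityTheory
open scoped ENNReal

namespace Pool.Agent.H2.GL

open Pool.Agent.H99.NS Pool.Agent.H84.GL Pool.Agent.H22.LPP

/-- measurability of finite suprema -/
lemma meas_sup {Ω : Type*} [MeasurableSpace Ω] (F : Finset ℕ) (f : ℕ → Ω → ℝ≥0∞)
    (hf : ∀ k, Measurable (f k)) : Measurable (fun ω => F.sup (fun k => f k ω)) := by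
  classical
  induction F using Finset.induction_on with
  | empty => simp
  | insert i s _ ih =>
    simp only [Finset.sup_insert]
    exact (hf i).max ih

/-- measurable argmax -/
lemma exists_argmax {Ω : Type*} [MeasurableSpace Ω] {F : Finset ℕ} (hF : F.Nonempty)
    (f : ℕ → Ω → ℝ≥0∞) (hf : ∀ k, Measurable (f k)) :
    ∃ κ : Ω → ℕ, Measurable κ ∧ (∀ ω, κ ω ∈ F ∧ F.sup (fun k => f k ω) = f (κ ω) ω) ∧
      ∀ ω ω', (∀ k, f k ω = f k ω') → κ ω = κ ω' := by
  classical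
  induction hF using Finset.Nonempty.cons_induction with
  | singleton a =>
    exact ⟨fun _ => a, measurable_const, fun ω => ⟨Finset.mem_singleton_self a, by simp⟩,
      fun _ _ _ => rfl⟩
  | cons a s ha hs ih =>
    obtain ⟨κ, hκ, h1, h2⟩ := ih
    have hm : Measurable (fun ω => f (κ ω) ω) := by
      have : (fun ω => f (κ ω) ω) = fun ω => s.sup (fun k => f k ω) :=
        funext fun ω => (h1 ω).2.symm
      rw [this]
      exact meas_sup s f hf
    refine ⟨fun ω => if f (κ ω) ω ≤ f a ω then a else κ ω,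
      Measurable.ite (measurableSet_le hm (hf a)) measurable_const hκ, ?_, ?_⟩
    · intro ω
      rw [Finset.sup_cons, (h1 ω).2]
      by_cases h : f (κ ω) ω ≤ f a ω
      · simp only [h, if_true]
        exact ⟨Finset.mem_cons_self a s, sup_eq_left.2 h⟩
      · simp only [h, if_false]
        exact ⟨Finset.mem_cons_of_mem (h1 ω).1, sup_eq_right.2 (not_le.1 h).le⟩
    · intro ω ω' h
      have e := h2 ω ω' h
      simp only [e, h]

lemma exists_x0 {A c : ℝ} (hA : 0 < A) (hc : 0 < c) :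
    ∃ x0 : ℝ, 0 ≤ x0 ∧ A * Real.exp (-(c * x0 ^ ((3:ℝ)/2))) ≤ 1 / 2 := by
  set y := |Real.log (2 * A)| / c with hy
  have hy0 : 0 ≤ y := by positivity
  refine ⟨y ^ ((2:ℝ)/3), by positivity, ?_⟩
  have h1 : (y ^ ((2:ℝ)/3)) ^ ((3:ℝ)/2) = y := by
    rw [← Real.rpow_mul hy0]
    norm_num
  rw [h1]
  have h2 : c * y = |Real.log (2 * A)| := by
    rw [hy]; field_simp
  rw [h2]
  have h3 : Real.exp (-|Real.log (2 * A)|) ≤ Real.exp (-Real.log (2 * A)) :=
    Real.exp_le_exp.2 (neg_le_neg (le_abs_self _))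
  rw [Real.exp_neg (Real.log (2 * A)), Real.exp_log (by positivity)] at h3
  calc A * Real.exp (-|Real.log (2 * A)|) ≤ A * (2 * A)⁻¹ :=
        mul_le_mul_of_nonneg_left h3 hA.le
    _ = 1 / 2 := by field_simp

/-- the final inequality between the exponents -/
lemma final_bound {m s l p w x0 C0 l0 lam : ℝ} (hs : 0 < s) (hl : 1 ≤ l)
    (hp0 : 0 ≤ p) (hp : p ≤ l - 1) (hx0 : 0 ≤ x0) (hC0 : 0 < C0) (hl0 : 0 < l0)
    (hlam : 0 < lam) (hlam0 : lam ≤ l0) :
    Real.log 2 + (lam * (-(m * (2 * l - p - 1)) + s / 4 * w ^ 2 / l +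
      x0 * (3 * l) ^ ((1:ℝ)/3)) +
      (lam * (m * (4 * l - 1 - p) - s / 2 * (p + 1) ^ 2 / (4 * l - 1 - p)) +
        C0 * ((4 * l - 1 - p) * lam ^ 3 + lam))) ≤
    2 * l * m * lam - s / 8 * lam * p ^ 2 / l +
      (s + 2 * x0 + 4 * C0 + 1 + C0 * l0) * lam * (w ^ 2 / l + l ^ ((1:ℝ)/3)) +
      (s + 2 * x0 + 4 * C0 + 1 + C0 * l0) * l * lam ^ 3 + (s + 2 * x0 + 4 * C0 + 1 + C0 * l0) := by
  have hlpos : 0 < l := by linarith
  set C := s + 2 * x0 + 4 * C0 + 1 + C0 * l0 with hC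
  have hCpos : 0 < C := by positivity
  have h3 : (3 * l) ^ ((1:ℝ)/3) ≤ 2 * l ^ ((1:ℝ)/3) := by
    rw [Real.mul_rpow (by norm_num) hlpos.le]
    apply mul_le_mul_of_nonneg_right _ (by positivity)
    have : (2 : ℝ) = (8 : ℝ) ^ ((1:ℝ)/3) := by
      rw [show (8 : ℝ) = 2 ^ (3 : ℝ) by norm_num, ← Real.rpow_mul (by norm_num)]
      norm_num
    rw [this]
    exact Real.rpow_le_rpow (by norm_num) (by norm_num) (by norm_num)
  set r := l ^ ((1:ℝ)/3) with hr
  have hr0 : 0 ≤ r := by positivity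
  set D := 4 * l - 1 - p with hD
  have hDpos : 0 < D := by linarith
  have hDle : D ≤ 4 * l := by linarith
  have h4 : s / 8 * (p ^ 2 / l) ≤ s / 2 * (p + 1) ^ 2 / D := by
    have e1 : p ^ 2 / (4 * l) ≤ (p + 1) ^ 2 / D := by
      apply div_le_div₀ (by positivity) (by nlinarith) hDpos hDle
    have e2 : s / 8 * (p ^ 2 / l) = s / 2 * (p ^ 2 / (4 * l)) := by
      field_simp; ring
    rw [e2, mul_div_assoc]
    exact mul_le_mul_of_nonneg_left e1 (by positivity)
  have hlog : Real.log 2 ≤ 1 := by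
    have := Real.log_two_lt_d9
    linarith
  have e3 : lam * (x0 * (3 * l) ^ ((1:ℝ)/3)) ≤ lam * (2 * x0 * r) := by
    apply mul_le_mul_of_nonneg_left _ hlam.le
    calc x0 * (3 * l) ^ ((1:ℝ)/3) ≤ x0 * (2 * r) := mul_le_mul_of_nonneg_left h3 hx0
      _ = 2 * x0 * r := by ring
  have e4 : lam * (s / 8 * (p ^ 2 / l)) ≤ lam * (s / 2 * (p + 1) ^ 2 / D) :=
    mul_le_mul_of_nonneg_left h4 hlam.le
  have e5 : C0 * (D * lam ^ 3) ≤ 4 * C0 * (l * lam ^ 3) := by
    have : D * lam ^ 3 ≤ 4 * l * lam ^ 3 := mul_le_mul_of_nonneg_right hDle (by positivity)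
    nlinarith
  have e6 : 4 * C0 * (l * lam ^ 3) ≤ C * (l * lam ^ 3) := by
    apply mul_le_mul_of_nonneg_right _ (by positivity)
    rw [hC]
    have : 0 ≤ C0 * l0 := by positivity
    linarith
  have e7 : C0 * lam ≤ C0 * l0 := mul_le_mul_of_nonneg_left hlam0 hC0.le
  have e8 : lam * (s / 4 * (w ^ 2 / l)) ≤ C * lam * (w ^ 2 / l) := by
    have h0 : 0 ≤ lam * (w ^ 2 / l) := by positivity
    have : s / 4 ≤ C := by
      rw [hC]
      have : 0 ≤ C0 * l0 := by positivity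
      linarith
    nlinarith [mul_le_mul_of_nonneg_right this h0]
  have e9 : lam * (2 * x0 * r) ≤ C * lam * r := by
    have h0 : 0 ≤ lam * r := by positivity
    have : 2 * x0 ≤ C := by
      rw [hC]
      have : 0 ≤ C0 * l0 := by positivity
      linarith
    nlinarith [mul_le_mul_of_nonneg_right this h0]
  have e10 : Real.log 2 + C0 * l0 ≤ C := by
    rw [hC]; linarith
  have lhs : Real.log 2 + (lam * (-(m * (2 * l - p - 1)) + s / 4 * w ^ 2 / l +
      x0 * (3 * l) ^ ((1:ℝ)/3)) +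
      (lam * (m * D - s / 2 * (p + 1) ^ 2 / D) + C0 * (D * lam ^ 3 + lam))) =
      2 * l * m * lam + (Real.log 2 + C0 * lam) + lam * (s / 4 * (w ^ 2 / l)) +
      lam * (x0 * (3 * l) ^ ((1:ℝ)/3)) - lam * (s / 2 * (p + 1) ^ 2 / D) + C0 * (D * lam ^ 3) := by
    rw [hD]; ring
  rw [lhs]
  have rhs : 2 * l * m * lam - s / 8 * lam * p ^ 2 / l + C * lam * (w ^ 2 / l + r) +
      C * l * lam ^ 3 + C = 2 * l * m * lam - lam * (s / 8 * (p ^ 2 / l)) +
      C * lam * (w ^ 2 / l) + C * lam * r + C * (l * lam ^ 3) + C := by ring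
  rw [rhs]
  linarith

theorem pf_ELU (h_UTM : D_UTM) (h_LT : D_LT) (h_FUB : T_FUB) (h_PRE : T_PRE) : T_ELU := by
  intro q hq0 hq1
  obtain ⟨C0, l0, hC0, hl0, hUTM⟩ := h_UTM q hq0 hq1
  obtain ⟨A, c, hA, hc, hLT⟩ := h_LT q hq0 hq1
  obtain ⟨x0, hx0, hAx⟩ := exists_x0 hA hc
  have hsg : 0 < sg q := by
    unfold sg
    exact div_pos (Real.sqrt_pos.2 hq0) (by linarith)
  refine ⟨sg q / 8, sg q + 2 * x0 + 4 * C0 + 1 + C0 * l0, l0, by positivity, by positivity,
    hl0, ?_⟩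
  intro lam hlam hlam0 a w j hw hwa hja
  -- real parameters
  have hl1 : (1 : ℝ) ≤ (a : ℝ) + 1 := by
    have : (0 : ℝ) ≤ a := Nat.cast_nonneg a
    linarith
  have hp0 : (0 : ℝ) ≤ (j : ℝ) * w := by positivity
  have hpl : (j : ℝ) * w ≤ (a : ℝ) + 1 - 1 := by
    have : ((j * w : ℕ) : ℝ) ≤ (a : ℝ) := by exact_mod_cast hja
    push_cast at this
    linarith
  have hwl : (w : ℝ) ≤ (a : ℝ) + 1 := by
    refine hwa.trans ?_
    calc ((a : ℝ) + 1) ^ ((3:ℝ)/4) ≤ ((a : ℝ) + 1) ^ (1 : ℝ) :=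
          Real.rpow_le_rpow_of_exponent_le hl1 (by norm_num)
      _ = (a : ℝ) + 1 := Real.rpow_one _
  have hw0 : (0 : ℝ) ≤ w := Nat.cast_nonneg w
  -- sites
  let u : Site := (((j * w : ℕ) : ℤ) - 2 * ((a : ℤ) + 1) - 1, ((j * w : ℕ) : ℤ) + 1)
  let xk : ℕ → Site := fun k => ((0 : ℤ) + k - 1, (0 : ℤ) + k + 1)
  let v : Site := qs (0, 0) a a
  have hv : v = (2 * (a : ℤ), 0) := by
    simp only [v, qs]
    refine Prod.ext ?_ ?_
    · simp only; ring
    · simp only; ring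
  -- the window
  set F : Finset ℕ := (Finset.Ico (j * w) ((j + 1) * w)).filter (fun k => k ≤ a) with hF
  have hFmem : ∀ k, k ∈ F ↔ (j * w ≤ k ∧ k < (j + 1) * w) ∧ k ≤ a := by
    intro k
    rw [hF, Finset.mem_filter, Finset.mem_Ico]
  have hFne : F.Nonempty := by
    refine ⟨j * w, (hFmem _).2 ⟨⟨le_rfl, ?_⟩, hja⟩⟩
    rw [Nat.add_mul]
    omega
  let f : ℕ → Env → ℝ≥0∞ := fun k ω =>
    ex (lam * ((LB (hs k (arr ω (0, 0))) (a - k) a : ℝ) + mu q * (k + 1)))
  have hfm : ∀ k, Measurable (f k) := by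
    intro k
    refine measurable_ex.comp ?_
    refine Measurable.const_mul ?_ _
    refine Measurable.add_const ?_ _
    exact (measurable_nat _).comp ((measurable_LB _ _).comp
      ((measurable_hs k).comp (measurable_arr (0, 0))))
  obtain ⟨κ, hκm, hκ, hκc⟩ := exists_argmax hFne f hfm
  let g : Env → ℝ≥0∞ := fun ω => F.sup (fun k => f k ω)
  have hgm : Measurable g := meas_sup F f hfm
  let K1 : ℝ := sg q / 4 * (w : ℝ) ^ 2 / ((a : ℝ) + 1) + x0 * (3 * ((a : ℝ) + 1)) ^ ((1:ℝ)/3)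
  let thr : ℕ → ℝ := fun k => mu q * (2 * ((a : ℝ) + 1) + k - (j : ℝ) * w) - K1
  let E : ℕ → Set Env := fun k => {ω | thr k ≤ T ω u (xk k)}
  have hEm : ∀ k, MeasurableSet (E k) := fun k =>
    measurableSet_le measurable_const (measurable_T u (xk k))
  -- the transfer
  have hEL : EL q lam w j a a = ∫⁻ ω, g ω ∂(PE q) := by
    unfold EL
    rw [← map_arr (0, 0) q, lintegral_map ?_ (measurable_arr (0, 0))]
    refine meas_sup F (fun k (W : ℕ × ℕ → ℕ) =>
      ex (lam * ((LB (hs k W) (a - k) a : ℝ) + mu q * (k + 1)))) (fun k => ?_)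
    refine measurable_ex.comp ?_
    refine Measurable.const_mul ?_ _
    refine Measurable.add_const ?_ _
    exact (measurable_nat _).comp ((measurable_LB _ _).comp (measurable_hs k))
  -- geometry
  have hReach : ∀ k, j * w ≤ k → Reach u (xk k) ∧ u.1 < (xk k).1 := by
    intro k hk
    have hk' : ((j * w : ℕ) : ℤ) ≤ k := by exact_mod_cast hk
    refine ⟨⟨?_, ?_⟩, ?_⟩
    · simp only [u, xk]
      rw [abs_le]
      constructor
      · linarith [Int.natCast_nonneg a]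
      · linarith [Int.natCast_nonneg a]
    · simp only [u, xk]
      refine ⟨(k : ℤ) - ((j * w : ℕ) : ℤ) + ((a : ℤ) + 1), ?_⟩
      ring
    · simp only [u, xk]
      linarith [Int.natCast_nonneg a]
  have hja' : ((j * w : ℕ) : ℤ) ≤ a := by exact_mod_cast hja
  have hReachv : Reach u v ∧ u.1 < v.1 := by
    rw [hv]
    refine ⟨⟨?_, ?_⟩, ?_⟩
    · simp only [u]
      rw [abs_le]
      constructor
      · linarith [Int.natCast_nonneg a, Int.natCast_nonneg (j * w)]
      · linarith [Int.natCast_nonneg a, Int.natCast_nonneg (j * w)]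
    · simp only [u]
      refine ⟨2 * (a : ℤ) + 1 - ((j * w : ℕ) : ℤ), ?_⟩
      ring
    · simp only [u]
      linarith [Int.natCast_nonneg a, Int.natCast_nonneg (j * w)]
  -- probabilities
  have hprob : ∀ k ∈ F, (2 : ℝ≥0∞)⁻¹ ≤ PE q (E k) := by
    intro k hk
    obtain ⟨⟨hk1, hk2⟩, hk3⟩ := (hFmem k).1 hk
    obtain ⟨hR, hlt⟩ := hReach k hk1
    have hlen : len u (xk k) = 2 * ((a : ℝ) + 1) + (k - (j : ℝ) * w) := by
      simp only [len, u, xk]
      push_cast
      ring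
    have hdsp : dsp u (xk k) = k - (j : ℝ) * w := by
      simp only [dsp, u, xk]
      push_cast
      ring
    have hd0 : (0 : ℝ) ≤ k - (j : ℝ) * w := by
      have : ((j * w : ℕ) : ℝ) ≤ k := by exact_mod_cast hk1
      push_cast at this
      linarith
    have hdw : (k : ℝ) - (j : ℝ) * w ≤ w := by
      have : ((k : ℕ) : ℝ) ≤ (((j + 1) * w : ℕ) : ℝ) := by exact_mod_cast hk2.le
      push_cast at this
      linarith
    have hlen1 : 2 * ((a : ℝ) + 1) ≤ len u (xk k) := by rw [hlen]; linarith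
    have hlen2 : len u (xk k) ≤ 3 * ((a : ℝ) + 1) := by rw [hlen]; linarith
    have hlen0 : 0 < len u (xk k) := by linarith
    have hcond : |dsp u (xk k)| ≤ (len u (xk k)) ^ ((3:ℝ)/4) := by
      rw [hdsp, abs_of_nonneg hd0]
      calc (k : ℝ) - (j : ℝ) * w ≤ w := hdw
        _ ≤ ((a : ℝ) + 1) ^ ((3:ℝ)/4) := hwa
        _ ≤ (len u (xk k)) ^ ((3:ℝ)/4) :=
          Real.rpow_le_rpow (by linarith) (by linarith) (by norm_num)
    have h1 := hLT u (xk k) hR hlt hcond x0 hx0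
    have h2 : PE q {ω | T ω u (xk k) ≤ par q u (xk k) - x0 * (len u (xk k)) ^ ((1:ℝ)/3)} ≤
        (2 : ℝ≥0∞)⁻¹ := by
      refine h1.trans ?_
      refine (ENNReal.ofReal_le_ofReal hAx).trans ?_
      rw [one_div, ENNReal.ofReal_inv_of_pos (by norm_num)]
      simp
    have hms : MeasurableSet {ω : Env | T ω u (xk k) ≤
        par q u (xk k) - x0 * (len u (xk k)) ^ ((1:ℝ)/3)} :=
      measurableSet_le (measurable_T u (xk k)) measurable_const
    have hthr : thr k ≤ par q u (xk k) - x0 * (len u (xk k)) ^ ((1:ℝ)/3) := by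
      have e1 : par q u (xk k) = mu q * len u (xk k) -
          sg q / 2 * (dsp u (xk k)) ^ 2 / len u (xk k) := rfl
      have e2 : sg q / 2 * (dsp u (xk k)) ^ 2 / len u (xk k) ≤
          sg q / 4 * (w : ℝ) ^ 2 / ((a : ℝ) + 1) := by
        have e3 : sg q / 4 * (w : ℝ) ^ 2 / ((a : ℝ) + 1) =
            sg q / 2 * (w : ℝ) ^ 2 / (2 * ((a : ℝ) + 1)) := by
          field_simp; ring
        rw [e3]
        apply div_le_div₀ (by positivity) _ (by positivity) hlen1
        apply mul_le_mul_of_nonneg_left _ (by positivity)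
        rw [hdsp]
        exact pow_le_pow_left₀ hd0 hdw 2
      have e4 : x0 * (len u (xk k)) ^ ((1:ℝ)/3) ≤ x0 * (3 * ((a : ℝ) + 1)) ^ ((1:ℝ)/3) :=
        mul_le_mul_of_nonneg_left
          (Real.rpow_le_rpow hlen0.le hlen2 (by norm_num)) hx0
      have e5 : mu q * len u (xk k) = mu q * (2 * ((a : ℝ) + 1) + k - (j : ℝ) * w) := by
        rw [hlen]; ring
      simp only [thr, K1]
      rw [e1, e5]
      linarith
    have h3 : {ω : Env | T ω u (xk k) ≤
        par q u (xk k) - x0 * (len u (xk k)) ^ ((1:ℝ)/3)}ᶜ ⊆ E k := by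
      intro ω hω
      simp only [Set.mem_compl_iff, Set.mem_ofPred_eq, not_le] at hω
      simp only [E, Set.mem_ofPred_eq]
      linarith
    calc (2 : ℝ≥0∞)⁻¹ = 1 - (2 : ℝ≥0∞)⁻¹ := ENNReal.one_sub_inv_two.symm
      _ ≤ 1 - PE q {ω | T ω u (xk k) ≤ par q u (xk k) - x0 * (len u (xk k)) ^ ((1:ℝ)/3)} :=
        tsub_le_tsub_left h2 1
      _ = PE q {ω : Env | T ω u (xk k) ≤
          par q u (xk k) - x0 * (len u (xk k)) ^ ((1:ℝ)/3)}ᶜ :=
        (prob_compl_eq_one_sub hms).symm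
      _ ≤ PE q (E k) := measure_mono h3
  -- independence
  have hdisj : Disjoint {z : Site | z.2 ≤ z.1} {z : Site | z.1 < z.2} := by
    rw [Set.disjoint_left]
    intro z h1 h2
    simp only [Set.mem_ofPred_eq] at h1 h2
    omega
  have hfub := h_FUB q {z : Site | z.2 ≤ z.1} {z : Site | z.1 < z.2} hdisj g κ E (2 : ℝ≥0∞)⁻¹
    hgm hκm hEm (by
      intro ω ω' h
      have harr : arr ω (0, 0) = arr ω' (0, 0) := by
        funext p
        simp only [arr]
        apply h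
        simp only [qs, Set.mem_ofPred_eq]
        omega
      have hff : ∀ k, f k ω = f k ω' := by
        intro k
        simp only [f, harr]
      exact ⟨by simp only [g, hff], hκc ω ω' hff⟩) (by
      intro k ω ω' h hω
      simp only [E, Set.mem_ofPred_eq] at hω ⊢
      rw [← T_congr (ω := ω) (ω' := ω') ?_]
      · exact hω
      · rintro z ⟨-, -, hz⟩
        apply h
        simp only [Set.mem_ofPred_eq]
        have h1 := hz.1
        simp only [xk] at h1
        have h2 := le_abs_self ((0 : ℤ) + k + 1 - z.2)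
        omega) (fun ω => hprob _ (hκ ω).1)
  -- the bound of the indicator
  let K0 : ℝ := -(mu q * (2 * ((a : ℝ) + 1) - (j : ℝ) * w - 1)) + K1
  have hind : ∀ ω, (E (κ ω)).indicator (fun _ => g ω) ω ≤ ex (lam * K0) * ex (lam * T ω u v) := by
    intro ω
    by_cases hω : ω ∈ E (κ ω)
    · rw [Set.indicator_of_mem hω, ← ex_add]
      have hg1 : g ω = f (κ ω) ω := (hκ ω).2
      rw [hg1]
      simp only [f]
      apply ex_le_ex.2
      obtain ⟨⟨hk1, hk2⟩, hk3⟩ := (hFmem (κ ω)).1 (hκ ω).1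
      have hpre := h_PRE ω (0, 0) u (κ ω) a a hk3 (hReach (κ ω) hk1).1
      have hpre' : T ω u (xk (κ ω)) + (LB (hs (κ ω) (arr ω (0, 0))) (a - κ ω) a : ℝ) ≤
        T ω u v := hpre
      have hω' : thr (κ ω) ≤ T ω u (xk (κ ω)) := hω
      rw [← mul_add]
      apply mul_le_mul_of_nonneg_left _ hlam.le
      simp only [thr] at hω'
      simp only [K0]
      linarith
    · rw [Set.indicator_of_notMem hω]
      exact bot_le
  have hutm := hUTM lam hlam.le hlam0 u v hReachv.1 hReachv.2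
  have hlenv : len u v = 4 * ((a : ℝ) + 1) - 1 - (j : ℝ) * w := by
    rw [hv]
    simp only [len, u]
    push_cast
    ring
  have hparv : par q u v = mu q * (4 * ((a : ℝ) + 1) - 1 - (j : ℝ) * w) -
      sg q / 2 * ((j : ℝ) * w + 1) ^ 2 / (4 * ((a : ℝ) + 1) - 1 - (j : ℝ) * w) := by
    have e1 : par q u v = mu q * len u v - sg q / 2 * (dsp u v) ^ 2 / len u v := rfl
    have e2 : dsp u v = -((j : ℝ) * w + 1) := by
      rw [hv]
      simp only [dsp, u]
      push_cast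
      ring
    rw [e1, e2, hlenv, neg_sq]
  have hmT : Measurable fun ω : Env => ex (lam * T ω u v) :=
    measurable_ex.comp ((measurable_T u v).const_mul lam)
  have h5 : (2 : ℝ≥0∞)⁻¹ * ∫⁻ ω, g ω ∂(PE q) ≤
      ex (lam * K0) * ex (lam * par q u v + C0 * (len u v * lam ^ 3 + lam)) := by
    calc (2 : ℝ≥0∞)⁻¹ * ∫⁻ ω, g ω ∂(PE q) ≤ _ := hfub
      _ ≤ ∫⁻ ω, ex (lam * K0) * ex (lam * T ω u v) ∂(PE q) := lintegral_mono hind
      _ = ex (lam * K0) * ∫⁻ ω, ex (lam * T ω u v) ∂(PE q) := lintegral_const_mul _ hmT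
      _ ≤ _ := mul_le_mul_right hutm _
  have h6 : ∫⁻ ω, g ω ∂(PE q) ≤ ex (Real.log 2 + (lam * K0 +
      (lam * par q u v + C0 * (len u v * lam ^ 3 + lam)))) := by
    have e2 : (2 : ℝ≥0∞) = ex (Real.log 2) := by
      unfold ex
      rw [Real.exp_log (by norm_num)]
      simp
    rw [ex_add, ex_add, ← e2]
    calc ∫⁻ ω, g ω ∂(PE q) = 2 * ((2 : ℝ≥0∞)⁻¹ * ∫⁻ ω, g ω ∂(PE q)) := by
          rw [← mul_assoc, ENNReal.mul_inv_cancel (by norm_num) (by norm_num), one_mul]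
      _ ≤ _ := mul_le_mul_right h5 _
  rw [hEL]
  refine h6.trans (ex_le_ex.2 ?_)
  rw [hparv, hlenv]
  have hfin := final_bound (m := mu q) (s := sg q) (l := (a : ℝ) + 1) (p := (j : ℝ) * w)
    (w := (w : ℝ)) (x0 := x0) (C0 := C0) (l0 := l0) (lam := lam) hsg hl1 hp0 hpl hx0 hC0 hl0
    hlam hlam0
  simp only [K0, K1]
  rw [← add_assoc (-(mu q * (2 * ((a : ℝ) + 1) - (j : ℝ) * w - 1)))]
  exact hfin

end Pool.Agent.H2.GL
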