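import Pool.Agent.H84.GL.Basic

/-!
Geometric last passage percolation (MP_57ddd5_pr): bad event for the heavy boundary model.
-/

open MeasureTheory ProbabilityTheory
open scoped ENNReal

namespace Pool.Agent.H2.GL

open Pool.Agent.H99.NS Pool.Agent.H84.GL

lemma AA_swap {q x y : ℝ} (hq : 0 < q) (hx : 0 < x) (hy : 0 < y) :
    q / AA q x y = AA q y x := by
  unfold AA
  rw [Real.sqrt_mul hq.le, Real.sqrt_mul hq.le]
  obtain ⟨s, hs⟩ : ∃ s, s = √q := ⟨_, rfl⟩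
  obtain ⟨u, hu⟩ : ∃ u, u = √x := ⟨_, rfl⟩
  obtain ⟨v, hv⟩ : ∃ v, v = √y := ⟨_, rfl⟩
  have hs0 : 0 < s := by rw [hs]; exact Real.sqrt_pos.2 hq
  have hu0 : 0 < u := by rw [hu]; exact Real.sqrt_pos.2 hx
  have hv0 : 0 < v := by rw [hv]; exact Real.sqrt_pos.2 hy
  have hqs : q = s ^ 2 := by rw [hs, Real.sq_sqrt hq.le]
  rw [← hs, ← hu, ← hv, hqs]
  have h1 : u + s * v ≠ 0 := by positivity
  have h2 : s ^ 2 * u + s * v ≠ 0 := by positivity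
  have h3 : v + s * u ≠ 0 := by positivity
  field_simp
  ring

lemma gg_swap (q x y : ℝ) : gg q x y = gg q y x := by
  unfold gg
  rw [add_comm x y, show q * x * y = q * y * x by ring]

lemma mp_first (α β q : ℝ) : MeasurePreserving
    (fun x : (ℕ → ℕ) × (ℕ → ℕ) × (ℕ × ℕ → ℕ) => (x.1, x.2.2)) (PB α β q) (PW α q) := by
  unfold PB PW
  exact (MeasurePreserving.id (P1 α)).prod measurePreserving_snd

lemma mp_second (α β q : ℝ) : MeasurePreserving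
    (fun x : (ℕ → ℕ) × (ℕ → ℕ) × (ℕ × ℕ → ℕ) => (x.2.1, tr x.2.2)) (PB α β q) (PW β q) := by
  unfold PB PW
  have h1 : MeasurePreserving (fun x : (ℕ → ℕ) × (ℕ → ℕ) × (ℕ × ℕ → ℕ) => x.2)
      ((P1 α).prod ((P1 β).prod (P2 q))) ((P1 β).prod (P2 q)) := measurePreserving_snd
  have h2 : MeasurePreserving tr (P2 q) (P2 q) := ⟨measurable_tr, map_tr q⟩
  have h3 := (MeasurePreserving.id (P1 β)).prod h2
  exact h3.comp h1

theorem pf_EXB (h_GLO : T_GLO) (h_GHU : T_GHU) : T_EXB := by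
  intro q hq0 hq1
  obtain ⟨c1, θ1, hc1, hθ1, hGLO⟩ := h_GLO q hq0 hq1
  obtain ⟨C0, θ2, hC0, hθ2, hGHU⟩ := h_GHU q hq0 hq1
  refine ⟨C0 / q, c1 / 4, min θ1 θ2, by positivity, by positivity, lt_min hθ1 hθ2, ?_⟩
  intro k0 a b hab hba hka hkb θ hθ0 hθm hK
  have hθ1' : θ ≤ θ1 := hθm.trans (min_le_left _ _)
  have hθ2' : θ ≤ θ2 := hθm.trans (min_le_right _ _)
  set M : ℝ := (a : ℝ) + b + 2 with hM
  have hM0 : 0 < M := by positivity
  set z : ℝ := c1 * M * θ ^ 2 / 4 with hz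
  have hz0 : 0 ≤ z := by positivity
  set G : ℝ := gg q (a+1 : ℕ) (b+1 : ℕ) with hG
  set α : ℝ := AA q (a+1 : ℕ) (b+1 : ℕ) * Real.exp θ with hα
  set β : ℝ := q / (AA q (a+1 : ℕ) (b+1 : ℕ) * Real.exp (-θ)) with hβ
  have hβ' : β = AA q (b+1 : ℕ) (a+1 : ℕ) * Real.exp θ := by
    rw [← AA_swap hq0 (by positivity : (0 : ℝ) < ((a+1 : ℕ) : ℝ))
      (by positivity : (0 : ℝ) < ((b+1 : ℕ) : ℝ)), hβ, Real.exp_neg]
    have := Real.exp_ne_zero θ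
    rw [div_mul_eq_div_div, div_inv_eq_mul]
  -- late exits
  have hlate : q * θ ^ 2 * k0 ≥ C0 * M * θ ^ 3 := by
    have h1 : C0 / q * M * θ ≤ k0 := hK
    have h2 : q * θ ^ 2 * (C0 / q * M * θ) ≤ q * θ ^ 2 * k0 :=
      mul_le_mul_of_nonneg_left h1 (by positivity)
    have h3 : q * θ ^ 2 * (C0 / q * M * θ) = C0 * M * θ ^ 3 := by
      field_simp
    linarith
  have hexp : -(θ * z) - q * θ ^ 2 * k0 + C0 * M * θ ^ 3 ≤ -(c1 / 4 * M * θ ^ 3) := by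
    have : θ * z = c1 / 4 * M * θ ^ 3 := by rw [hz]; ring
    linarith
  -- the three parts
  have P1' : PB α β q {x | (GB x.1 x.2.1 x.2.2 (a+1) (b+1) : ℝ) ≤ G + z} ≤
      ex (-(c1 / 4 * M * θ ^ 3)) := by
    have h := hGLO (a+1) (b+1) (by omega) (by omega) hab hba θ θ z hθ0 hθ1' (Or.inr rfl)
    refine h.trans (ex_le_ex.2 ?_)
    have e1 : (((a+1 : ℕ) : ℝ) + ((b+1 : ℕ) : ℝ)) = M := by
      rw [hM]; push_cast; ring
    rw [e1]
    have e2 : (θ + θ) * z - c1 * M * θ ^ 3 = -(c1 / 2 * M * θ ^ 3) := by rw [hz]; ring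
    rw [e2]
    have : 0 ≤ c1 * M * θ ^ 3 := by positivity
    linarith
  have P2' : PB α β q {x | G + z ≤ (Gh x.1 x.2.2 k0 a b : ℝ)} ≤
      ex (-(c1 / 4 * M * θ ^ 3)) := by
    have h := hGHU k0 a b hab hba hka θ z hθ0 hθ2'
    have hs : MeasurableSet {x : (ℕ → ℕ) × (ℕ × ℕ → ℕ) | G + z ≤ (Gh x.1 x.2 k0 a b : ℝ)} :=
      measurableSet_le measurable_const ((measurable_nat _).comp (measurable_Gh k0 a b))
    have e := (mp_first α β q).measure_preimage hs.nullMeasurableSet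
    have e' : PB α β q {x | G + z ≤ (Gh x.1 x.2.2 k0 a b : ℝ)} =
      PW α q {x : (ℕ → ℕ) × (ℕ × ℕ → ℕ) | G + z ≤ (Gh x.1 x.2 k0 a b : ℝ)} := e
    rw [e']
    exact h.trans (ex_le_ex.2 hexp)
  have P3' : PB α β q {x | G + z ≤ (Gv x.2.1 x.2.2 k0 a b : ℝ)} ≤
      ex (-(c1 / 4 * M * θ ^ 3)) := by
    have h := hGHU k0 b a hba hab hkb θ z hθ0 hθ2'
    have hs : MeasurableSet {x : (ℕ → ℕ) × (ℕ × ℕ → ℕ) | G + z ≤ (Gh x.1 x.2 k0 b a : ℝ)} :=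
      measurableSet_le measurable_const ((measurable_nat _).comp (measurable_Gh k0 b a))
    have e := (mp_second α β q).measure_preimage hs.nullMeasurableSet
    have e' : PB α β q {x | G + z ≤ (Gv x.2.1 x.2.2 k0 a b : ℝ)} =
      PW β q {x : (ℕ → ℕ) × (ℕ × ℕ → ℕ) | G + z ≤ (Gh x.1 x.2 k0 b a : ℝ)} := e
    rw [e', hβ']
    rw [← hβ'] at *
    have hG' : gg q (b+1 : ℕ) (a+1 : ℕ) = G := by rw [hG, gg_swap]
    rw [hG'] at h
    refine h.trans (ex_le_ex.2 ?_)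
    have : (b : ℝ) + a + 2 = M := by rw [hM]; ring
    rw [this]
    exact hexp
  have hsub : {x : (ℕ → ℕ) × (ℕ → ℕ) × (ℕ × ℕ → ℕ) |
      (GB x.1 x.2.1 x.2.2 (a+1) (b+1) : ℝ) ≤ G ∨
        GB x.1 x.2.1 x.2.2 (a+1) (b+1) ≤ Gh x.1 x.2.2 k0 a b ∨
        GB x.1 x.2.1 x.2.2 (a+1) (b+1) ≤ Gv x.2.1 x.2.2 k0 a b} ⊆
      {x | (GB x.1 x.2.1 x.2.2 (a+1) (b+1) : ℝ) ≤ G + z} ∪
      ({x | G + z ≤ (Gh x.1 x.2.2 k0 a b : ℝ)} ∪ {x | G + z ≤ (Gv x.2.1 x.2.2 k0 a b : ℝ)}) := by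
    intro x hx
    simp only [Set.mem_ofPred_eq, Set.mem_union] at hx ⊢
    rcases hx with h | h | h
    · left; linarith
    · have h' : (GB x.1 x.2.1 x.2.2 (a+1) (b+1) : ℝ) ≤ (Gh x.1 x.2.2 k0 a b : ℝ) := by
        exact_mod_cast h
      rcases le_or_gt (G + z) (Gh x.1 x.2.2 k0 a b : ℝ) with h2 | h2
      · right; left; exact h2
      · left; linarith
    · have h' : (GB x.1 x.2.1 x.2.2 (a+1) (b+1) : ℝ) ≤ (Gv x.2.1 x.2.2 k0 a b : ℝ) := by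
        exact_mod_cast h
      rcases le_or_gt (G + z) (Gv x.2.1 x.2.2 k0 a b : ℝ) with h2 | h2
      · right; right; exact h2
      · left; linarith
  calc _ ≤ _ := measure_mono hsub
    _ ≤ _ := measure_union_le _ _
    _ ≤ _ := add_le_add_right (measure_union_le _ _) _
    _ ≤ ex (-(c1 / 4 * M * θ ^ 3)) + (ex (-(c1 / 4 * M * θ ^ 3)) + ex (-(c1 / 4 * M * θ ^ 3))) :=
      add_le_add P1' (add_le_add P2' P3')
    _ = 3 * ex (-(c1 / 4 * M * θ ^ 3)) := by ring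

end Pool.Agent.H2.GL
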