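import Pool.Agent.H84.GL.Targets2
import Pool.Agent.H22.LPP.Prob

/-!
Geometric last passage percolation (MP_57ddd5_pr): independence with a random index.
-/

open MeasureTheory ProbabilityTheory
open scoped ENNReal

namespace Pool.Agent.H2.GL

open Pool.Agent.H99.NS Pool.Agent.H84.GL Pool.Agent.H22.LPP

theorem pf_FUB : T_FUB := by
  intro q A B hAB g κ E p hg hκ hE hA hB hp
  have hm := mp_splice q A
  have hS : MeasurableSet {ω : Env | ω ∈ E (κ ω)} := by
    have : {ω : Env | ω ∈ E (κ ω)} = ⋃ k, (κ ⁻¹' {k} ∩ E k) := by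
      ext ω
      simp
    rw [this]
    exact MeasurableSet.iUnion fun k => (hκ (measurableSet_singleton k)).inter (hE k)
  have hint : (fun ω => (E (κ ω)).indicator (fun _ => g ω) ω) =
      {ω : Env | ω ∈ E (κ ω)}.indicator g := by
    funext ω
    by_cases h : ω ∈ E (κ ω)
    · rw [Set.indicator_of_mem h, Set.indicator_of_mem (show ω ∈ {ω : Env | ω ∈ E (κ ω)} from h)]
    · rw [Set.indicator_of_notMem h,
        Set.indicator_of_notMem (show ω ∉ {ω : Env | ω ∈ E (κ ω)} from h)]
  have hFm : Measurable (fun ω => (E (κ ω)).indicator (fun _ => g ω) ω) := by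
    rw [hint]
    exact hg.indicator hS
  have h1 : ∀ w w' : Env, (E (κ (splice A w w'))).indicator (fun _ => g (splice A w w'))
      (splice A w w') = (E (κ w)).indicator (fun _ => g w) w' := by
    intro w w'
    obtain ⟨e1, e2⟩ := hA (splice A w w') w (fun s hs => splice_of_mem _ _ hs)
    rw [e1, e2]
    have e3 : ∀ s ∈ B, splice A w w' s = w' s := fun s hs =>
      splice_of_not_mem _ _ (Set.disjoint_right.1 hAB hs)
    by_cases h : w' ∈ E (κ w)
    · rw [Set.indicator_of_mem h, Set.indicator_of_mem
        (hB (κ w) w' (splice A w w') (fun s hs => (e3 s hs).symm) h)]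
    · rw [Set.indicator_of_notMem h, Set.indicator_of_notMem
        (fun h' => h (hB (κ w) (splice A w w') w' e3 h'))]
  have h2 : ∫⁻ ω, (E (κ ω)).indicator (fun _ => g ω) ω ∂(PE q) =
      ∫⁻ w, ∫⁻ w', (E (κ w)).indicator (fun _ => g w) w' ∂(PE q) ∂(PE q) := by
    have e1 := hm.lintegral_comp hFm
    have e2 := lintegral_prod (μ := PE q) (ν := PE q) _
      (hFm.comp (measurable_splice A)).aemeasurable
    rw [← e1]
    refine e2.trans ?_
    refine lintegral_congr fun w => lintegral_congr fun w' => h1 w w'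
  rw [h2]
  rw [← lintegral_const_mul p hg]
  refine lintegral_mono fun w => ?_
  simp only
  rw [lintegral_indicator (hE _), setLIntegral_const, mul_comm]
  exact mul_le_mul_right (hp w) _

end Pool.Agent.H2.GL
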